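import Pool.Agent.R294.DPP6

/-!
# MP_4a7829_pr, Q1: there is a transient planar random walk on a discrete point process

The definitions used (file `Pool/Agent/R294/DPP1.lean`):

* `Env = ℤ × ℤ → Bool`, `shift v ω y = ω (v + y)`;
* `IsDPP Q`: `Q` is a probability measure on `Env`, `shift (1,0)` and `shift (0,1)` are both
  ergodic (and measure preserving) for `Q`, and `Q {ω | ∀ x, ω x = false} < 1`;
* `O0 = {ω | ω 0 = true}`, `palm Q = Q(· | O0)`;
* `gap ω e = min {k > 0 : ω (k e) = 1}`;
* `step ω v d = v + gap (shift v ω) e • e`, where `e = dir d` is one of the four unit vectors;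
* `walk ω ξ 0 = 0`, `walk ω ξ (n+1) = step ω (walk ω ξ n) (ξ n)`;
* `dirLaw`: the law of an independent sequence of uniform elements of the four directions.

So for each `ω` the law of `walk ω ξ` under `dirLaw` is the quenched law `P_ω`.
-/

set_option autoImplicit false

namespace Pool.Agent.Results.MP_4a7829_pr.Transient

open MeasureTheory Pool.Agent.R294.DPP

/-- There is a discrete point process on `ℤ²` for which the random walk is almost surely
transient. -/
theorem result : ∃ Q : Measure Env, IsDPP Q ∧ 0 < Q O0 ∧
    ∀ᵐ ω ∂(palm Q), ∀ᵐ ξ ∂dirLaw, {n : ℕ | walk ω ξ n = 0}.Finite :=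
  Pool.Agent.R294.DPP.main

end Pool.Agent.Results.MP_4a7829_pr.Transient
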